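import Mathlib

namespace Pool.Agent.Results.MP_09fe95_al.Summand
open PiTensorProduct

variable {k M V : Type} [Field k] [Monoid M] [AddCommGroup V] [Module k V]

/-- the diagonal action on the `n`-th tensor power -/
noncomputable def pow (ρ : Representation k M V) (n : ℕ) :
    Representation k M (PiTensorProduct k fun _ : Fin n => V) where
  toFun m := PiTensorProduct.map fun _ => ρ m
  map_one' := by simp [Module.End.one_eq_id]
  map_mul' a b := by simp [Module.End.mul_eq_comp, PiTensorProduct.map_comp]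

open Classical in
/-- the action of `m` on `Ind W`: units act as on `W`, non-units act as `0` -/
noncomputable def ind (σ : Representation k Mˣ V) (m : M) : V →ₗ[k] V :=
  if h : IsUnit m then σ h.unit else 0

/-- `(W, σ)` is isomorphic to a direct summand of `(U, τ)` -/
def IsSummand {W U : Type} [AddCommGroup W] [Module k W] [AddCommGroup U] [Module k U]
    (σ : M → W →ₗ[k] W) (τ : M → U →ₗ[k] U) : Prop :=
  ∃ (i : W →ₗ[k] U) (r : U →ₗ[k] W), r ∘ₗ i = LinearMap.id ∧
    ∀ m, i ∘ₗ σ m = τ m ∘ₗ i ∧ r ∘ₗ τ m = σ m ∘ₗ r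

lemma dual1 {v : V} (hv : v ≠ 0) : ∃ φ : V →ₗ[k] k, φ v = 1 := Module.Projective.exists_dual_eq_one k hv

lemma sing [Finite M] [FiniteDimensional k V] (ρ : Representation k M V)
    (hρ : ∀ m, ρ m = LinearMap.id → m = 1) (m : M) (hm : ¬ IsUnit m) :
    ¬ Function.Injective (ρ m) := by
  intro h
  obtain ⟨a, b, hab, e⟩ := Finite.exists_ne_map_eq_of_infinite fun n : ℕ => m ^ n
  wlog hlt : a < b generalizing a b
  · exact this b a hab.symm e.symm (by omega)
  obtain ⟨c, rfl⟩ := Nat.exists_eq_add_of_lt hlt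
  have hi : Function.Injective (ρ (m ^ a)) := by
    rw [map_pow, Module.End.coe_pow]; exact h.iterate a
  have : m ^ (c + 1) = 1 := hρ _ (LinearMap.ext fun v => hi (by
    rw [← Module.End.mul_apply, ← map_mul, ← pow_add, ← add_assoc]
    exact (congrArg (fun x => ρ x v) e).symm))
  exact hm (IsUnit.of_pow_eq_one this (by omega))

lemma pick [Finite M] [FiniteDimensional k V] [Nontrivial V] (ρ : Representation k M V)
    (hρ : ∀ m, ρ m = LinearMap.id → m = 1) (x : M × Fin 3) : ∃ (u : V) (φ : V →ₗ[k] k), φ u = 1 ∧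
    (x.2 = 0 → ¬ IsUnit x.1 → ρ x.1 u = 0) ∧ (x.2 = 1 → ¬ IsUnit x.1 → ∀ v, φ (ρ x.1 v) = 0) ∧
    (x.2 = 2 → (¬ ∃ c : k, ∀ v, ρ x.1 v = c • v) → φ (ρ x.1 u) = 0) := by
  obtain ⟨m, j⟩ := x
  obtain ⟨u0, hu0⟩ := exists_ne (0 : V)
  obtain ⟨φ0, hφ0⟩ := dual1 (k := k) hu0
  fin_cases j
  · by_cases hm : IsUnit m
    · exact ⟨u0, φ0, hφ0, by simp [hm]⟩
    obtain ⟨u, hu, hu'⟩ : ∃ u, ρ m u = 0 ∧ u ≠ 0 := by
      simpa [injective_iff_map_eq_zero] using sing ρ hρ m hm
    obtain ⟨φ, hφ⟩ := dual1 (k := k) hu'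
    exact ⟨u, φ, hφ, by simp [hu]⟩
  · by_cases hm : IsUnit m
    · exact ⟨u0, φ0, hφ0, by simp [hm]⟩
    have := sing ρ hρ m hm
    rw [LinearMap.injective_iff_surjective] at this
    obtain ⟨u, hu⟩ : ∃ u, u ∉ LinearMap.range (ρ m) := not_forall.1 this
    obtain ⟨φ, h1, h2⟩ := Submodule.exists_le_ker_of_notMem hu
    refine ⟨u, (φ u)⁻¹ • φ, by simp [h1], by simp, fun _ _ v => ?_, by simp⟩
    have : φ (ρ m v) = 0 := h2 ⟨v, rfl⟩
    simp [this]
  · by_cases hm : ∃ c : k, ∀ v, ρ m v = c • v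
    · exact ⟨u0, φ0, hφ0, by simp, by simp, fun _ h => absurd hm h⟩
    obtain ⟨u, hu⟩ : ∃ u, u ∉ Submodule.span k {ρ m u} ∨ ρ m u ∉ Submodule.span k {u} := by
      by_contra hc
      push Not at hc
      obtain ⟨c, hc⟩ := LinearMap.exists_eq_smul_id_of_forall_notLinearIndependent
        (f := ρ m) (fun v => by
          by_cases hv : v = 0
          · subst hv; exact fun h => h.ne_zero 0 rfl
          rw [LinearIndependent.pair_iff' hv]
          obtain ⟨c, hc⟩ := Submodule.mem_span_singleton.1 (hc v).2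
          exact fun h => h c hc)
      exact hm ⟨c, fun v => by simp [hc]⟩
    have hu : u ∉ Submodule.span k {ρ m u} := by
      rcases hu with hu | hu
      · exact hu
      · intro h
        obtain ⟨c, hc⟩ := Submodule.mem_span_singleton.1 h
        by_cases h0 : c = 0
        · rw [h0, zero_smul] at hc; subst hc; simp at hu
        · exact hu (Submodule.mem_span_singleton.2 ⟨c⁻¹, by
            conv_lhs => rw [← hc]
            rw [inv_smul_smul₀ h0]⟩)
    obtain ⟨φ, h1, h2⟩ := Submodule.exists_le_ker_of_notMem hu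
    refine ⟨u, (φ u)⁻¹ • φ, by simp [h1], by simp, by simp, fun _ _ => ?_⟩
    have : φ (ρ m u) = 0 := h2 (Submodule.mem_span_singleton_self _)
    simp [this]

open Classical in
lemma card_ne [Fintype Mˣ] [Nontrivial V] (ρ : Representation k M V)
    (hρ : ∀ m, ρ m = LinearMap.id → m = 1) :
    ((Finset.univ.filter fun g : Mˣ => ∃ c : k, ∀ v, ρ g v = c • v).card : k) ≠ 0 := by
  let Z : Subgroup Mˣ :=
    { carrier := {g | ∃ c : k, ∀ v, ρ g v = c • v}
      one_mem' := ⟨1, by simp⟩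
      mul_mem' := by
        rintro a b ⟨c, hc⟩ ⟨d, hd⟩
        exact ⟨c * d, fun v => by simp [hc, hd, mul_smul]⟩
      inv_mem' := by
        rintro a ⟨c, hc⟩
        obtain ⟨u, hu⟩ := exists_ne (0 : V)
        have e : ∀ v, c • ρ ↑a⁻¹ v = v := fun v => by
          rw [← hc, ← Module.End.mul_apply, ← map_mul]; simp
        have h0 : c ≠ 0 := fun h => hu (by rw [← e u, h, zero_smul])
        exact ⟨c⁻¹, fun v => by rw [eq_inv_smul_iff₀ h0, e]⟩ }
  have hc : (Finset.univ.filter fun g : Mˣ => ∃ c : k, ∀ v, ρ g v = c • v).card =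
      Fintype.card Z := (Fintype.card_subtype _).symm
  rw [hc]
  intro h
  obtain ⟨p, hp⟩ := CharP.exists k
  have hd := (CharP.cast_eq_zero_iff k p _).1 h
  rcases CharP.char_is_prime_or_zero k p with hpr | rfl
  · have := Fact.mk hpr
    obtain ⟨⟨g, c, hg⟩, hx⟩ := exists_prime_orderOf_dvd_card p hd
    have h1 : g ^ p = 1 := congrArg Subtype.val (hx ▸ pow_orderOf_eq_one (⟨g, c, hg⟩ : Z))
    have h2 : ∀ n v, ρ ↑(g ^ n) v = c ^ n • v := fun n => by
      induction n with
      | zero => simp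
      | succ n ih => intro v; rw [pow_succ, Units.val_mul, map_mul, Module.End.mul_apply, ih, hg,
          smul_smul, pow_succ]
    obtain ⟨u, hu⟩ := exists_ne (0 : V)
    have h3 := h2 p u
    rw [h1] at h3
    have h4 : c ^ p = 1 := smul_left_injective k hu (by simpa using h3.symm)
    have h5 : c = 1 := by
      have := sub_pow_char (p := p) c 1
      rw [h4, one_pow, sub_self] at this
      exact sub_eq_zero.1 (pow_eq_zero_iff hpr.ne_zero |>.1 this)
    have h6 : (⟨g, c, hg⟩ : Z) = 1 :=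
      Subtype.ext (Units.ext (hρ _ (LinearMap.ext fun v => by simp [hg, h5])))
    rw [h6, orderOf_one] at hx
    exact hpr.one_lt.ne hx
  · simp at hd

lemma core {U : Type} [AddCommGroup U] [Module k U] [FiniteDimensional k U]
    (τ : Representation k M U) (π : U →ₗ[k] U) (w : U) (hw : w ≠ 0) (h0 : π w = w)
    (h1 : ∀ x, π (π x) = π x) (h2 : ∀ (g : Mˣ) x, π (τ g x) = τ g (π x))
    (h3 : ∀ m, ¬ IsUnit m → ∀ x, π (τ m x) = 0 ∧ τ m (π x) = 0) :
    ∃ (W : Type) (_ : AddCommGroup W) (_ : Module k W) (σ : Representation k Mˣ W),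
      FiniteDimensional k W ∧ Nontrivial W ∧ IsSummand (ind σ) τ := by
  let σ : Representation k Mˣ (LinearMap.range π) :=
    Representation.subrepresentation (τ.comp (Units.coeHom M)) _ fun g => by
      rintro _ ⟨x, rfl⟩; exact ⟨_, h2 g x⟩
  refine ⟨LinearMap.range π, inferInstance, inferInstance, σ, inferInstance,
    ⟨⟨⟨w, w, h0⟩, 0, fun h => hw (congrArg Subtype.val h)⟩⟩, Submodule.subtype _, π.rangeRestrict,
    ?_, fun m => ?_⟩
  · ext ⟨_, x, rfl⟩; exact h1 x
  · by_cases hm : IsUnit m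
    · obtain ⟨g, rfl⟩ := hm
      have : ind σ (g : M) = σ g := by simp [ind]
      rw [this]
      exact ⟨rfl, LinearMap.ext fun x => Subtype.ext (h2 g x)⟩
    · have : ind σ m = 0 := by simp [ind, hm]
      rw [this]
      constructor
      · ext ⟨_, x, rfl⟩; exact (h3 m hm x).2.symm
      · exact LinearMap.ext fun x => Subtype.ext (h3 m hm x).1

theorem result (k M V : Type) [Field k] [Monoid M] [Finite M] [AddCommGroup V] [Module k V]
    [FiniteDimensional k V] [Nontrivial V] (ρ : Representation k M V)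
    (hρ : ∀ m, ρ m = LinearMap.id → m = 1) :
    ∃ n, 1 ≤ n ∧ ∃ (W : Type) (_ : AddCommGroup W) (_ : Module k W) (σ : Representation k Mˣ W),
      FiniteDimensional k W ∧ Nontrivial W ∧ IsSummand (ind σ) (pow ρ n) := by
  classical
  have := Fintype.ofFinite M
  obtain ⟨n, ⟨e⟩⟩ := Finite.exists_equiv_fin (M × Fin 3)
  refine ⟨n, (e (1, 0)).pos, ?_⟩
  choose u φ h1 h2 h3 h4 using pick ρ hρ
  let w : PiTensorProduct k fun _ : Fin n => V := tprod k fun i => u (e.symm i)
  let f : (PiTensorProduct k fun _ : Fin n => V) →ₗ[k] k :=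
    lift ((MultilinearMap.mkPiAlgebra k (Fin n) k).compLinearMap fun i => φ (e.symm i))
  have hf : ∀ x : Fin n → V, f (tprod k x) = ∏ i, φ (e.symm i) (x i) := fun x => by simp [f]
  have ht : ∀ m (x : Fin n → V), pow ρ n m (tprod k x) = tprod k fun i => ρ m (x i) :=
    fun m x => map_tprod _ _
  have a1 : ∀ m, ¬ IsUnit m → pow ρ n m w = 0 := fun m hm => by
    rw [ht]
    exact MultilinearMap.map_coord_zero _ (e (m, 0)) (by simpa using h2 (m, 0) rfl hm)
  have a2 : ∀ m, ¬ IsUnit m → ∀ x, f (pow ρ n m x) = 0 := fun m hm x => by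
    induction x using PiTensorProduct.induction_on with
    | smul_tprod r x =>
      rw [map_smul, map_smul, ht, hf, Finset.prod_eq_zero (Finset.mem_univ (e (m, 1)))
        (by simpa using h3 (m, 1) rfl hm _), smul_zero]
    | add x y hx hy => simp [hx, hy]
  have a3 : ∀ g : Mˣ, f (pow ρ n g w) • pow ρ n ↑g⁻¹ w =
      if ∃ c : k, ∀ v, ρ g v = c • v then w else 0 := fun g => by
    split_ifs with h
    · obtain ⟨c, hc⟩ := h
      have : pow ρ n g w = c ^ n • w := by
        rw [ht]; simp only [hc]; rw [MultilinearMap.map_smul_univ]; simp [w]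
      rw [← map_smul]
      have e2 : f (pow ρ n g w) • w = pow ρ n g w := by simp [this, w, hf, h1]
      rw [e2, ← Module.End.mul_apply, ← map_mul]; simp
    · rw [ht, hf, Finset.prod_eq_zero (Finset.mem_univ (e (g, 2)))
        (by simpa using h4 (g, 2) rfl h), zero_smul]
  have hc := card_ne ρ hρ
  set c : k := ((Finset.univ.filter fun g : Mˣ => ∃ c : k, ∀ v, ρ g v = c • v).card : k)
  let π : Module.End k (PiTensorProduct k fun _ : Fin n => V) :=
    c⁻¹ • ∑ g : Mˣ, (f ∘ₗ pow ρ n g).smulRight (pow ρ n ↑g⁻¹ w)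
  have hπ : ∀ x, π x = c⁻¹ • ∑ g : Mˣ, f (pow ρ n g x) • pow ρ n ↑g⁻¹ w := fun x => by
    simp [π, LinearMap.sum_apply]
  have b0 : π w = w := by
    rw [hπ]; simp only [a3]
    rw [← Finset.sum_filter, Finset.sum_const, ← Nat.cast_smul_eq_nsmul k, inv_smul_smul₀ hc]
  have b2 : ∀ (g : Mˣ) x, π (pow ρ n g x) = pow ρ n g (π x) := fun g x => by
    rw [hπ, hπ, map_smul, map_sum, ← Equiv.sum_comp (Equiv.mulRight g⁻¹)]
    congr 1
    refine Finset.sum_congr rfl fun h _ => ?_
    simp [← Module.End.mul_apply, ← map_mul]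
  refine core _ π w (fun h => ?_) b0 (fun x => ?_) b2 fun m hm x => ⟨?_, ?_⟩
  · have := congrArg f h
    simp [w, hf, h1] at this
  · conv_lhs => rw [hπ x, map_smul, map_sum]
    simp only [map_smul, b2, b0]
    rw [hπ]
  · rw [hπ, Finset.sum_eq_zero, smul_zero]
    intro g _
    rw [← Module.End.mul_apply, ← map_mul, a2 _ (by simpa using hm), zero_smul]
  · rw [hπ, map_smul, map_sum, Finset.sum_eq_zero, smul_zero]
    intro g _
    rw [map_smul, ← Module.End.mul_apply, ← map_mul, a1 _ (by simpa using hm), smul_zero]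

end Pool.Agent.Results.MP_09fe95_al.Summand
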